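import Pool.Agent.Y734.N.Stms2

/-!
# The group of `S`-units of a number field is finitely generated
-/

set_option autoImplicit false

namespace Pool.Agent.Y734.N.SG

open NumberField IsDedekindDomain Pool.Agent.Y734.M Pool.Agent.Y734.N

section

variable (k : Type) [Field k] [NumberField k]

/-- the valuations at the places of a set, as a linear map -/
noncomputable def vals (T : Set (HeightOneSpectrum (𝓞 k))) : Additive kˣ →ₗ[ℤ] (T → ℤ) :=
  LinearMap.pi fun v =>
    (MonoidHom.toAdditiveLeft (v.1.valuationOfNeZero (K := k))).toIntLinearMap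

/-- the elements which are units outside `T` -/
def un (T : Set (HeightOneSpectrum (𝓞 k))) : Subgroup kˣ where
  carrier := {a | ∀ v : HeightOneSpectrum (𝓞 k), v ∉ T → v.valuationOfNeZero a = 1}
  one_mem' v _ := map_one _
  mul_mem' {a b} ha hb v hv := by rw [map_mul, ha v hv, hb v hv, one_mul]
  inv_mem' {a} ha v hv := by rw [map_inv, ha v hv, inv_one]

/-- an element all of whose valuations are trivial is a unit -/
theorem exists_unit (a : kˣ) (ha : ∀ v : HeightOneSpectrum (𝓞 k), v.valuationOfNeZero a = 1) :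
    ∃ u : (𝓞 k)ˣ, Units.map (algebraMap (𝓞 k) k).toMonoidHom u = a := by
  have h1 : ∀ b : kˣ, (∀ v : HeightOneSpectrum (𝓞 k), v.valuationOfNeZero b = 1) →
      ∃ x : 𝓞 k, algebraMap (𝓞 k) k x = b := by
    intro b hb
    refine HeightOneSpectrum.mem_integers_of_valuation_le_one k (b : k) fun v => ?_
    rw [← HeightOneSpectrum.valuationOfNeZero_eq, hb v]
    exact le_refl _
  obtain ⟨x, hx⟩ := h1 a ha
  obtain ⟨y, hy⟩ := h1 a⁻¹ fun v => by rw [map_inv, ha v, inv_one]
  have h2 : x * y = 1 := by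
    apply FaithfulSMul.algebraMap_injective (𝓞 k) k
    rw [map_mul, hx, hy, map_one, Units.mul_inv]
  refine ⟨⟨x, y, h2, by rw [mul_comm]; exact h2⟩, ?_⟩
  ext
  exact hx

theorem un_fg (T : Set (HeightOneSpectrum (𝓞 k))) (hT : T.Finite) : (un k T).FG := by
  have _ : Finite T := hT
  have _ : Fintype T := Fintype.ofFinite T
  rw [Subgroup.fg_iff_add_fg, ← AddSubgroup.toIntSubmodule_toAddSubgroup (un k T).toAddSubgroup,
    ← Submodule.fg_iff_addSubgroup_fg]
  set s : Submodule ℤ (Additive kˣ) := AddSubgroup.toIntSubmodule (un k T).toAddSubgroup with hs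
  let g : Additive (𝓞 k)ˣ →ₗ[ℤ] Additive kˣ :=
    (MonoidHom.toAdditive (Units.map (algebraMap (𝓞 k) k).toMonoidHom)).toIntLinearMap
  refine Submodule.fg_of_fg_map_of_fg_inf_ker (vals k T) (IsNoetherian.noetherian _) ?_
  have h1 : IsNoetherian ℤ (LinearMap.range g) := inferInstance
  refine (isNoetherian_submodule.1 h1) _ ?_
  rintro a ⟨ha1, ha2⟩
  have ha1' : a.toMul ∈ un k T := ha1
  obtain ⟨u, hu⟩ := exists_unit k a.toMul fun v => by
    by_cases hv : v ∈ T
    · have h2 := congrFun (LinearMap.mem_ker.1 ha2) ⟨v, hv⟩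
      exact h2
    · exact ha1' v hv
  exact ⟨Additive.ofMul u, congrArg Additive.ofMul hu⟩

end

theorem sg : SgStmt := by
  intro k _ _ S hS
  set N : 𝓞 k := ∏ p ∈ S, (p : 𝓞 k) with hN
  have hN0 : N ≠ 0 := Finset.prod_ne_zero_iff.2 fun p hp => by
    exact_mod_cast (hS p hp).ne_zero
  have hNk : algebraMap (𝓞 k) k N = ∏ p ∈ S, (p : k) := by
    rw [hN, map_prod]
    exact Finset.prod_congr rfl fun p _ => map_natCast _ _
  let T : Set (HeightOneSpectrum (𝓞 k)) := {v | v.asIdeal ∣ Ideal.span {N}}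
  have hT : T.Finite := Ideal.finite_factors (by
    rwa [Ne, Ideal.zero_eq_bot, Ideal.span_singleton_eq_bot])
  refine ⟨un k T, un_fg k T hT, fun a ha => ⟨1, one_pos, ?_⟩⟩
  rw [pow_one]
  intro v hv
  obtain ⟨-, m, h1, h2⟩ := ha
  have hvN : v.valuation k (algebraMap (𝓞 k) k N) = 1 := by
    refine le_antisymm (v.valuation_le_one N) (not_lt.1 fun h => hv ?_)
    exact (v.valuation_lt_one_iff_dvd N).1 h
  have h3 : ∀ b : k, IsIntegral ℤ ((∏ p ∈ S, (p : k)) ^ m * b) → v.valuation k b ≤ 1 := by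
    intro b hb
    have h4 : v.valuation k ((∏ p ∈ S, (p : k)) ^ m * b) ≤ 1 :=
      v.valuation_le_one (K := k) (⟨_, hb⟩ : 𝓞 k)
    rwa [← hNk, map_mul, map_pow, hvN, one_pow, one_mul] at h4
  have h4 := h3 _ h1
  have h5 := h3 _ h2
  have h6 : v.valuation k (a : k) = 1 := by
    refine le_antisymm h4 ?_
    rw [map_inv₀] at h5
    by_contra hlt
    push Not at hlt
    have h7 : v.valuation k (a : k) ≠ 0 := (Valuation.ne_zero_iff _).2 a.ne_zero
    have h8 := (one_lt_inv₀ (zero_lt_iff.2 h7)).2 hlt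
    exact absurd h5 (not_le.2 h8)
  rw [← HeightOneSpectrum.valuationOfNeZero_eq] at h6
  exact_mod_cast h6

end Pool.Agent.Y734.N.SG
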